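import Mathlib

namespace Pool.Agent.H.MP_93ce62_an

open Finset

theorem claim (p l : ℕ) [hp : Fact p.Prime] (d : ℕ) :
    ∃ (G : Type) (_ : AddCommGroup G) (_ : Fintype G) (F : (Fin l → G) → G),
      ∀ (ι : Type) (S : Finset ι) (g : ι → Fin l → G) (t : ι → Fin l),
        S.Nonempty → S.card < p → (∀ [DecidableEq (Fin l → G)], (S.image g).card ≤ d) →
          ∑ a ∈ S, (F (g a) - g a (t a)) ≠ 0 := by
  classical
  induction d with
  | zero =>
    refine ⟨ZMod 1, inferInstance, inferInstance, fun _ => 0, ?_⟩
    intro ι S g t hS _ hc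
    have := (hS.image g).card_pos
    have := @hc inferInstance
    omega
  | succ d ih =>
    obtain ⟨G, iG, fG, F, hF⟩ := ih
    refine ⟨G × (((Fin l → G) → Fin l → ZMod p) → ZMod p), inferInstance, inferInstance,
      fun g => (F (fun i => (g i).1), fun c => 1 + ∑ i, c (fun i => (g i).1) i * (g i).2 c), ?_⟩
    intro ι S g t hS hp' hc h0
    set x : ι → Fin l → G := fun a i => (g a i).1 with hx
    by_cases hd : (S.image x).card ≤ d
    · refine hF ι S x t hS hp' (by intro inst; rw [Subsingleton.elim inst _]; exact hd) ?_
      have := congrArg Prod.fst h0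
      simpa [Prod.fst_sum] using this
    · have hc' := @hc inferInstance
      have him : S.image x = (S.image g).image (fun y i => (y i).1) := by
        rw [Finset.image_image]; rfl
      have hle : ((S.image g).image (fun y i => (y i).1)).card ≤ (S.image g).card :=
        Finset.card_image_le
      have heq : ((S.image g).image (fun y i => (y i).1)).card = (S.image g).card := by
        rw [him] at hd; omega
      have hinj := Finset.card_image_iff.mp heq
      have hxy : ∀ a ∈ S, ∀ b ∈ S, x a = x b → g a = g b := by
        intro a ha b hb hab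
        exact hinj (Finset.mem_coe.mpr (Finset.mem_image_of_mem g ha))
          (Finset.mem_coe.mpr (Finset.mem_image_of_mem g hb)) hab
      set N : (Fin l → G) → ZMod p := fun y => ∑ b ∈ S, if x b = y then 1 else 0 with hN
      have hN0 : ∀ a ∈ S, N (x a) ≠ 0 := by
        intro a ha
        have e : N (x a) = (((S.filter (fun b => x b = x a)).card : ℕ) : ZMod p) := by
          simp [hN]
        rw [e, Ne, ZMod.natCast_eq_zero_iff]
        intro hdv
        have h1 : 0 < (S.filter (fun b => x b = x a)).card :=
          Finset.card_pos.mpr ⟨a, by simp [ha]⟩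
        have h2 : (S.filter (fun b => x b = x a)).card ≤ S.card := Finset.card_filter_le _ _
        have := Nat.le_of_dvd h1 hdv
        omega
      set c : (Fin l → G) → Fin l → ZMod p :=
        fun y i => (N y)⁻¹ * ∑ b ∈ S, if x b = y ∧ t b = i then 1 else 0 with hcdef
      have h2 := congrFun (congrArg Prod.snd h0) c
      simp only [Prod.snd_sum, Prod.snd_sub, Finset.sum_apply, Pi.sub_apply, Prod.snd_zero,
        Pi.zero_apply] at h2
      have key : ∑ a ∈ S, ∑ i, c (x a) i * (g a i).2 c = ∑ b ∈ S, (g b (t b)).2 c := by
        have e1 : ∀ a ∈ S, ∑ i, c (x a) i * (g a i).2 c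
            = ∑ b ∈ S, if x b = x a then (N (x b))⁻¹ * (g b (t b)).2 c else 0 := by
          intro a ha
          have : ∀ i, c (x a) i * (g a i).2 c
              = ∑ b ∈ S, if x b = x a ∧ t b = i then (N (x a))⁻¹ * (g a i).2 c else 0 := by
            intro i
            have : c (x a) i = (N (x a))⁻¹ * ∑ b ∈ S, if x b = x a ∧ t b = i then 1 else 0 := rfl
            rw [this, Finset.mul_sum, Finset.sum_mul]
            refine Finset.sum_congr rfl fun b _ => ?_
            split_ifs <;> simp
          simp_rw [this]
          rw [Finset.sum_comm]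
          refine Finset.sum_congr rfl fun b hb => ?_
          by_cases hba : x b = x a
          · have := hxy b hb a ha hba
            simp [hba, this]
          · simp [hba]
        rw [Finset.sum_congr rfl e1, Finset.sum_comm]
        refine Finset.sum_congr rfl fun b hb => ?_
        have : ∑ a ∈ S, (if x b = x a then (N (x b))⁻¹ * (g b (t b)).2 c else 0)
            = N (x b) * ((N (x b))⁻¹ * (g b (t b)).2 c) := by
          have : N (x b) = ∑ a ∈ S, if x a = x b then 1 else 0 := rfl
          conv_rhs => enter [1]; rw [this]
          rw [Finset.sum_mul]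
          refine Finset.sum_congr rfl fun a _ => ?_
          by_cases h : x a = x b
          · simp [h]
          · have h' : ¬ x b = x a := fun e => h e.symm
            simp [h, h']
        rw [this, ← mul_assoc, mul_inv_cancel₀ (hN0 b hb), one_mul]
      rw [Finset.sum_sub_distrib, Finset.sum_add_distrib] at h2
      have key' : ∑ a ∈ S, ∑ i, c (fun i => (g a i).1) i * (g a i).2 c
          = ∑ b ∈ S, (g b (t b)).2 c := key
      rw [key'] at h2
      simp only [Finset.sum_const, nsmul_eq_mul, mul_one, add_sub_cancel_right] at h2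
      rw [ZMod.natCast_eq_zero_iff] at h2
      have := Nat.le_of_dvd hS.card_pos h2
      omega

/-- A finite digraph in which any `2r` vertices have a common out-neighbour and which has
no closed structure on fewer than `r` vertices. -/
structure Dg (r : ℕ) where
  V : Type
  [fin : Fintype V]
  [dec : DecidableEq V]
  E : V → V → Prop
  dom : ∀ H : Finset V, H.card ≤ 2 * r → ∃ k, ∀ i ∈ H, E i k
  girth : ∀ S : Finset V, S.Nonempty → (∀ s ∈ S, ∃ h ∈ S, E h s) → r ≤ S.card

theorem exists_dg (r : ℕ) : Nonempty (Dg r) := by
  classical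
  obtain ⟨p, hpr, hp⟩ := Nat.exists_infinite_primes r
  have : Fact p.Prime := ⟨hp⟩
  obtain ⟨G, iG, fG, F, hF⟩ := claim p (2 * r) p
  refine ⟨{ V := G, E := fun i k => ∃ g t, k - i = F g - g t, dom := ?_, girth := ?_ }⟩
  · intro H hH
    let g : Fin (2 * r) → G := fun t =>
      if h : (t : ℕ) < H.card then (H.equivFin.symm ⟨t, h⟩ : G) else 0
    refine ⟨F g, fun i hi => ⟨g, ⟨H.equivFin ⟨i, hi⟩, lt_of_lt_of_le (Fin.is_lt _) hH⟩, ?_⟩⟩
    simp [g]
  · intro S
    induction S using Finset.strongInduction with
    | H S ih =>
      intro hS hE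
      choose! h hh hE' using hE
      by_cases him : S.image h = S
      · by_contra hlt
        push Not at hlt
        have hE2 : ∀ s ∈ S, ∃ q : (Fin (2 * r) → G) × Fin (2 * r), s - h s = F q.1 - q.1 q.2 := by
          intro s hs
          obtain ⟨g, t, e⟩ := hE' s hs
          exact ⟨(g, t), e⟩
        obtain ⟨s0, hs0⟩ := hS
        obtain ⟨q0, -⟩ := hE2 s0 hs0
        have : Nonempty ((Fin (2 * r) → G) × Fin (2 * r)) := ⟨q0⟩
        choose! q hq using hE2
        refine hF G S (fun s => (q s).1) (fun s => (q s).2) ⟨s0, hs0⟩ (by omega) ?_ ?_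
        · intro inst
          exact Finset.card_image_le.trans (by omega)
        · rw [← Finset.sum_congr rfl hq, Finset.sum_sub_distrib]
          have hinj : Set.InjOn h S := Finset.card_image_iff.mp (by rw [him])
          have : ∑ s ∈ S, h s = ∑ s ∈ S.image h, s := (Finset.sum_image (f := fun s => s) hinj).symm
          rw [this, him, sub_self]
      · have hsub : S.image h ⊆ S := by
          intro s hs
          obtain ⟨a, ha, rfl⟩ := Finset.mem_image.mp hs
          exact hh a ha
        have hss : S.image h ⊂ S := Finset.ssubset_iff_subset_ne.mpr ⟨hsub, him⟩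
        refine (ih _ hss (hS.image h) ?_).trans (Finset.card_le_card hsub)
        intro s hs
        exact ⟨h s, Finset.mem_image_of_mem h (hsub hs), hE' s (hsub hs)⟩

end Pool.Agent.H.MP_93ce62_an
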