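import Pool.Agent.H.MP_93ce62_an.A

namespace Pool.Agent.H.MP_93ce62_an

open Finset

attribute [instance] Dg.fin Dg.dec

variable {r : ℕ} [NeZero r] (D : Dg r)

abbrev Pt (D : Dg r) := D.V → ZMod r

noncomputable def chi (v : D.V → ℤ) : Pt D → ℂ :=
  fun x => ZMod.stdAddChar (∑ i, (v i : ZMod r) * x i)

theorem chi_add (v w : D.V → ℤ) (x : Pt D) : chi D (v + w) x = chi D v x * chi D w x := by
  simp only [chi, ← AddChar.map_add_eq_mul, ← Finset.sum_add_distrib, Pi.add_apply, Int.cast_add,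
    add_mul]

theorem chi_zero (x : Pt D) : chi D 0 x = 1 := by
  simp [chi]

theorem norm_chi (v : D.V → ℤ) (x : Pt D) : ‖chi D v x‖ = 1 := by
  simp [chi]

theorem sum_chi (v : D.V → ℤ) (i : D.V) (h : (v i : ZMod r) ≠ 0) : ∑ x, chi D v x = 0 := by
  let L : (Pt D) →+ ZMod r :=
    { toFun := fun x => ∑ i, (v i : ZMod r) * x i
      map_zero' := by simp
      map_add' := by intro x y; simp [mul_add, Finset.sum_add_distrib] }
  have e : ∀ x, chi D v x = (ZMod.stdAddChar.compAddMonoidHom L) x := fun x => rfl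
  simp_rw [e]
  rw [AddChar.sum_eq_zero_iff_ne_zero]
  intro h0
  have h1 : (ZMod.stdAddChar.compAddMonoidHom L) (Pi.single i 1) = 1 := by rw [h0]; rfl
  have h2 : L (Pi.single i 1) = (v i : ZMod r) := by
    change ∑ j, (v j : ZMod r) * (Pi.single i 1 : Pt D) j = _
    rw [Finset.sum_eq_single i] <;> simp +contextual
  change ZMod.stdAddChar (L (Pi.single i 1)) = 1 at h1
  rw [h2, ← (ZMod.stdAddChar (N := r)).map_zero_eq_one] at h1
  exact h (ZMod.injective_stdAddChar h1)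

def P (n : ℕ) (v : D.V → ℤ) : Prop :=
  ∃ S : Finset D.V, S.Nonempty ∧ S.card ≤ n ∧ (∀ i, 0 < v i → i ∈ S) ∧
    ∀ s, ((s ∈ S ∧ v s ≤ 0) ∨ v s < 0) → ∃ h ∈ S, D.E h s

omit [NeZero r] in
theorem P_add {n m : ℕ} {v w : D.V → ℤ} (h1 : P D n v) (h2 : P D m w) : P D (n + m) (v + w) := by
  obtain ⟨S, hS, hc, hp, hE⟩ := h1
  obtain ⟨T, hT, hc', hp', hE'⟩ := h2
  refine ⟨S ∪ T, hS.mono Finset.subset_union_left,
    (Finset.card_union_le _ _).trans (by omega), ?_, ?_⟩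
  · intro i hi
    simp only [Pi.add_apply] at hi
    by_cases h : 0 < v i
    · exact Finset.mem_union_left _ (hp i h)
    · exact Finset.mem_union_right _ (hp' i (by omega))
  · intro s hs
    simp only [Pi.add_apply, Finset.mem_union] at hs
    have a1 : ((s ∈ S ∧ v s ≤ 0) ∨ v s < 0) → ∃ h ∈ S ∪ T, D.E h s := fun h => by
      obtain ⟨k, hk, e⟩ := hE s h
      exact ⟨k, Finset.mem_union_left _ hk, e⟩
    have a2 : ((s ∈ T ∧ w s ≤ 0) ∨ w s < 0) → ∃ h ∈ S ∪ T, D.E h s := fun h => by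
      obtain ⟨k, hk, e⟩ := hE' s h
      exact ⟨k, Finset.mem_union_right _ hk, e⟩
    by_cases b1 : v s < 0
    · exact a1 (Or.inr b1)
    by_cases b2 : w s < 0
    · exact a2 (Or.inr b2)
    rcases hs with ⟨hs | hs, h0⟩ | h0
    · exact a1 (Or.inl ⟨hs, by omega⟩)
    · exact a2 (Or.inl ⟨hs, by omega⟩)
    · omega

omit [NeZero r] in
theorem P_big {n : ℕ} {v : D.V → ℤ} (h1 : P D n v) (h : ∀ i, v i ≤ 0) : r ≤ n := by
  obtain ⟨S, hS, hc, hp, hE⟩ := h1
  exact (D.girth S hS fun s hs => hE s (Or.inl ⟨hs, h s⟩)).trans hc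

noncomputable def ind (p : Prop) (x : ℝ) : ℝ := @ite _ p (Classical.propDecidable p) x 0

theorem ind_pos {p : Prop} (h : p) (x : ℝ) : ind p x = x := by simp [ind, h]

theorem ind_neg {p : Prop} (h : ¬ p) (x : ℝ) : ind p x = 0 := by simp [ind, h]

theorem ind_nonneg (p : Prop) {x : ℝ} (hx : 0 ≤ x) : 0 ≤ ind p x := by
  by_cases h : p
  · rwa [ind_pos h]
  · rw [ind_neg h]

theorem ind_le (p : Prop) {x : ℝ} (hx : 0 ≤ x) : ind p x ≤ x := by
  by_cases h : p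
  · rw [ind_pos h]
  · rwa [ind_neg h]

theorem ind_mono {p q : Prop} (hpq : p → q) {x : ℝ} (hx : 0 ≤ x) : ind p x ≤ ind q x := by
  by_cases h : p
  · rw [ind_pos h, ind_pos (hpq h)]
  · rw [ind_neg h]; exact ind_nonneg q hx

theorem ind_mul (p : Prop) (x y : ℝ) : ind p (x * y) = x * ind p y := by
  by_cases h : p
  · rw [ind_pos h, ind_pos h]
  · rw [ind_neg h, ind_neg h, mul_zero]

theorem ind_or (p q : Prop) {x : ℝ} (hx : 0 ≤ x) : ind (p ∨ q) x ≤ ind p x + ind q x := by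
  have h1 := ind_nonneg p hx
  have h2 := ind_nonneg q hx
  by_cases h : p ∨ q
  · rw [ind_pos h]
    rcases h with h | h
    · rw [ind_pos h]; linarith
    · rw [ind_pos h]; linarith
  · rw [ind_neg h]; linarith

structure RepD (a : Pt D → ℂ) (c : ℝ) where
  ι : Type
  [fin : Fintype ι]
  α : ι → ℂ
  n : ι → ℕ
  w : ι → Prop
  v : ι → D.V → ℤ
  f : Pt D → ℂ
  h1 : ∀ d, 1 ≤ n d
  hv : ∀ d, ∑ i, |v d i| ≤ (n d : ℤ)
  hP : ∀ d, ¬ w d → P D (n d) (v d)
  ha : ∀ x, a x = ∑ d, α d * chi D (v d) x + f x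
  hc : ∑ d, 4 ^ n d * ‖α d‖ ≤ c
  hw : ∀ R : Finset D.V,
    ∑ d, ind (w d ∧ (∀ i, 0 < v d i → i ∈ R)) ‖α d‖ ≤ (r : ℝ)⁻¹ * 2 ^ R.card * c
  hf : ∀ x, ‖f x‖ ≤ (r : ℝ)⁻¹ * c

attribute [instance] RepD.fin

def Rep (a : Pt D → ℂ) (c : ℝ) : Prop := Nonempty (RepD D a c)

variable {D}

theorem RepD.nonneg {a : Pt D → ℂ} {c : ℝ} (q : RepD D a c) : 0 ≤ c :=
  le_trans (Finset.sum_nonneg fun d _ => by positivity) q.hc

theorem RepD.sum_le {a : Pt D → ℂ} {c : ℝ} (q : RepD D a c) : ∑ d, ‖q.α d‖ ≤ c / 4 := by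
  have : 4 * ∑ d, ‖q.α d‖ ≤ c := by
    rw [Finset.mul_sum]
    refine le_trans (Finset.sum_le_sum fun d _ => ?_) q.hc
    have : (4 : ℝ) ^ 1 ≤ 4 ^ q.n d := pow_le_pow_right₀ (by norm_num) (q.h1 d)
    exact mul_le_mul_of_nonneg_right (by simpa using this) (norm_nonneg _)
  linarith

theorem RepD.sum2_le {a : Pt D → ℂ} {c : ℝ} (q : RepD D a c) :
    ∑ d, 2 ^ q.n d * ‖q.α d‖ ≤ c / 2 := by
  have : 2 * ∑ d, 2 ^ q.n d * ‖q.α d‖ ≤ c := by
    rw [Finset.mul_sum]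
    refine le_trans (Finset.sum_le_sum fun d _ => ?_) q.hc
    have h1 : (2 : ℝ) ^ 1 ≤ 2 ^ q.n d := pow_le_pow_right₀ (by norm_num) (q.h1 d)
    have h2 : (4 : ℝ) ^ q.n d = 2 ^ q.n d * 2 ^ q.n d := by rw [← mul_pow]; norm_num
    rw [h2, ← mul_assoc]
    refine mul_le_mul_of_nonneg_right ?_ (norm_nonneg _)
    exact mul_le_mul_of_nonneg_right (by simpa using h1) (by positivity)
  linarith

theorem RepD.main_le {a : Pt D → ℂ} {c : ℝ} (q : RepD D a c) (x : Pt D) :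
    ‖∑ d, q.α d * chi D (q.v d) x‖ ≤ c / 4 := by
  refine (norm_sum_le _ _).trans (le_trans (le_of_eq ?_) q.sum_le)
  simp [norm_chi]

omit [NeZero r] in
theorem eta_le (hr : 2 ≤ r) : (r : ℝ)⁻¹ ≤ 1 / 2 := by
  have : (2 : ℝ) ≤ r := by exact_mod_cast hr
  rw [one_div]
  exact inv_anti₀ (by norm_num) this

theorem RepD.val_le (hr : 2 ≤ r) {a : Pt D → ℂ} {c : ℝ} (q : RepD D a c) (x : Pt D) :
    ‖a x‖ ≤ 3 / 4 * c := by
  rw [q.ha x]
  have h1 := q.main_le x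
  have h2 := q.hf x
  have h3 := mul_le_mul_of_nonneg_right (eta_le hr) q.nonneg
  have := norm_add_le (∑ d, q.α d * chi D (q.v d) x) (q.f x)
  linarith

theorem rep_exists (a : Pt D → ℂ) : ∃ c, Rep D a c := by
  have hr : (0 : ℝ) < r := by exact_mod_cast Nat.pos_of_ne_zero (NeZero.ne r)
  refine ⟨r * ∑ x, ‖a x‖, ⟨⟨Empty, fun _ => 0, fun _ => 1, fun _ => True, fun _ => 0, a,
    by simp, by simp, by simp, by simp, ?_, ?_, ?_⟩⟩⟩
  · simp only [Finset.univ_eq_empty, Finset.sum_empty]; positivity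
  · intro R; simp only [Finset.univ_eq_empty, Finset.sum_empty]; positivity
  · intro x
    rw [← mul_assoc, inv_mul_cancel₀ hr.ne', one_mul]
    exact Finset.single_le_sum (f := fun x => ‖a x‖) (fun _ _ => norm_nonneg _) (Finset.mem_univ x)

theorem rep_zero : Rep D 0 0 :=
  ⟨⟨Empty, fun _ => 0, fun _ => 1, fun _ => True, fun _ => 0, 0,
    by simp, by simp, by simp, by simp, by simp, by simp, by simp⟩⟩

theorem rep_add {a b : Pt D → ℂ} {c e : ℝ} (h1 : Rep D a c) (h2 : Rep D b e) :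
    Rep D (a + b) (c + e) := by
  obtain ⟨q⟩ := h1
  obtain ⟨p⟩ := h2
  refine ⟨⟨q.ι ⊕ p.ι, Sum.elim q.α p.α, Sum.elim q.n p.n, Sum.elim q.w p.w, Sum.elim q.v p.v,
    q.f + p.f, ?_, ?_, ?_, ?_, ?_, ?_, ?_⟩⟩
  · rintro (d | d)
    · exact q.h1 d
    · exact p.h1 d
  · rintro (d | d)
    · exact q.hv d
    · exact p.hv d
  · rintro (d | d)
    · exact q.hP d
    · exact p.hP d
  · intro x
    simp only [Fintype.sum_sum_type, Sum.elim_inl, Sum.elim_inr, Pi.add_apply, q.ha x, p.ha x]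
    ring
  · simp only [Fintype.sum_sum_type, Sum.elim_inl, Sum.elim_inr]
    exact add_le_add q.hc p.hc
  · intro R
    simp only [Fintype.sum_sum_type, Sum.elim_inl, Sum.elim_inr]
    rw [mul_add]
    exact add_le_add (q.hw R) (p.hw R)
  · intro x
    rw [mul_add]
    exact (norm_add_le _ _).trans (add_le_add (q.hf x) (p.hf x))

theorem rep_smul (z : ℂ) {a : Pt D → ℂ} {c : ℝ} (h1 : Rep D a c) :
    Rep D (z • a) (‖z‖ * c) := by
  obtain ⟨q⟩ := h1
  refine ⟨⟨q.ι, fun d => z * q.α d, q.n, q.w, q.v, z • q.f, q.h1, q.hv, q.hP, ?_, ?_, ?_, ?_⟩⟩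
  · intro x
    simp only [Pi.smul_apply, smul_eq_mul, q.ha x, mul_add, Finset.mul_sum, mul_assoc]
  · have := mul_le_mul_of_nonneg_left q.hc (norm_nonneg z)
    rw [Finset.mul_sum] at this
    refine le_trans (le_of_eq (Finset.sum_congr rfl fun d _ => ?_)) this
    rw [norm_mul]; ring
  · intro R
    have := mul_le_mul_of_nonneg_left (q.hw R) (norm_nonneg z)
    rw [Finset.mul_sum] at this
    refine le_trans (le_of_eq (Finset.sum_congr rfl fun d _ => ?_)) (this.trans (le_of_eq ?_))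
    · rw [norm_mul, ind_mul]
    · ring
  · intro x
    have := mul_le_mul_of_nonneg_left (q.hf x) (norm_nonneg z)
    simp only [Pi.smul_apply, smul_eq_mul, norm_mul]
    linarith

omit [NeZero r] in
theorem card_neg_le {n : ℕ} {v : D.V → ℤ} (h : ∑ i, |v i| ≤ (n : ℤ)) :
    (Finset.univ.filter (fun i => v i ≠ 0)).card ≤ n := by
  have : (((Finset.univ.filter (fun i => v i ≠ 0)).card : ℕ) : ℤ) ≤ ∑ i, |v i| := by
    rw [Finset.card_filter]
    push_cast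
    refine Finset.sum_le_sum fun i _ => ?_
    split_ifs with h
    · exact Int.one_le_abs h
    · exact abs_nonneg _
  exact_mod_cast this.trans h

theorem RepD.wild_shift {a : Pt D → ℂ} {c : ℝ} (q : RepD D a c) (R : Finset D.V) {n : ℕ}
    {u : D.V → ℤ} (h : ∑ i, |u i| ≤ (n : ℤ)) :
    ∑ d, ind (q.w d ∧ (∀ i, 0 < q.v d i + u i → i ∈ R)) ‖q.α d‖
      ≤ (r : ℝ)⁻¹ * 2 ^ R.card * c * 2 ^ n := by
  have h1 := q.hw (R ∪ Finset.univ.filter (fun i => u i ≠ 0))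
  have h2 : (R ∪ Finset.univ.filter (fun i => u i ≠ 0)).card ≤ R.card + n :=
    (Finset.card_union_le _ _).trans (by have := card_neg_le h; omega)
  have h3 : (2 : ℝ) ^ (R ∪ Finset.univ.filter (fun i => u i ≠ 0)).card ≤ 2 ^ R.card * 2 ^ n := by
    rw [← pow_add]; exact pow_le_pow_right₀ (by norm_num) h2
  have hc := q.nonneg
  refine le_trans (Finset.sum_le_sum fun d _ => ?_) (h1.trans ?_)
  · refine ind_mono (fun hh => ⟨hh.1, fun i hi => ?_⟩) (norm_nonneg _)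
    by_cases hu : u i = 0
    · exact Finset.mem_union_left _ (hh.2 i (by omega))
    · exact Finset.mem_union_right _ (by simp [hu])
  · have : (r : ℝ)⁻¹ * 2 ^ R.card * c * 2 ^ n = (r : ℝ)⁻¹ * (2 ^ R.card * 2 ^ n) * c := by ring
    rw [this]
    gcongr

theorem rep_mul (hr : 2 ≤ r) {a b : Pt D → ℂ} {c e : ℝ} (h1 : Rep D a c) (h2 : Rep D b e) :
    Rep D (a * b) (c * e) := by
  classical
  obtain ⟨q⟩ := h1
  obtain ⟨p⟩ := h2
  have hc := q.nonneg
  have he := p.nonneg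
  refine ⟨⟨q.ι × p.ι, fun d => q.α d.1 * p.α d.2, fun d => q.n d.1 + p.n d.2,
    fun d => q.w d.1 ∨ p.w d.2, fun d => q.v d.1 + p.v d.2,
    fun x => q.f x * b x + (∑ d, q.α d * chi D (q.v d) x) * p.f x, ?_, ?_, ?_, ?_, ?_, ?_, ?_⟩⟩
  · intro d
    have := q.h1 d.1
    omega
  · intro d
    have h1 := q.hv d.1
    have h2 := p.hv d.2
    push_cast
    refine le_trans (Finset.sum_le_sum fun i _ => abs_add_le (q.v d.1 i) (p.v d.2 i)) ?_
    rw [Finset.sum_add_distrib]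
    exact add_le_add h1 h2
  · intro d hd
    push Not at hd
    exact P_add D (q.hP _ hd.1) (p.hP _ hd.2)
  · intro x
    have e1 : ∑ d : q.ι × p.ι, q.α d.1 * p.α d.2 * chi D (q.v d.1 + p.v d.2) x
        = (∑ d, q.α d * chi D (q.v d) x) * (∑ d, p.α d * chi D (p.v d) x) := by
      rw [Fintype.sum_prod_type, Finset.sum_mul_sum]
      refine Finset.sum_congr rfl fun d _ => Finset.sum_congr rfl fun d' _ => ?_
      rw [chi_add]; ring
    rw [e1, Pi.mul_apply, q.ha x, p.ha x]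
    ring
  · have e1 : ∑ d : q.ι × p.ι, (4 : ℝ) ^ (q.n d.1 + p.n d.2) * ‖q.α d.1 * p.α d.2‖
        = (∑ d, 4 ^ q.n d * ‖q.α d‖) * (∑ d, 4 ^ p.n d * ‖p.α d‖) := by
      rw [Fintype.sum_prod_type, Finset.sum_mul_sum]
      refine Finset.sum_congr rfl fun d _ => Finset.sum_congr rfl fun d' _ => ?_
      rw [pow_add, norm_mul]; ring
    rw [e1]
    exact mul_le_mul q.hc p.hc (Finset.sum_nonneg fun d _ => by positivity) hc
  · intro R
    have b1 : ∀ d : q.ι × p.ι,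
        ind ((q.w d.1 ∨ p.w d.2) ∧ (∀ i, 0 < (q.v d.1 + p.v d.2) i → i ∈ R)) ‖q.α d.1 * p.α d.2‖
        ≤ ind (q.w d.1 ∧ (∀ i, 0 < q.v d.1 i + p.v d.2 i → i ∈ R)) ‖q.α d.1‖ * ‖p.α d.2‖
          + ind (p.w d.2 ∧ (∀ i, 0 < p.v d.2 i + q.v d.1 i → i ∈ R)) ‖p.α d.2‖ * ‖q.α d.1‖ := by
      intro d
      rw [mul_comm (ind _ _), mul_comm (ind _ _), ← ind_mul, ← ind_mul, mul_comm ‖p.α d.2‖,
        norm_mul]
      refine le_trans (ind_mono ?_ (by positivity)) (ind_or _ _ (by positivity))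
      rintro ⟨hh | hh, hR⟩
      · exact Or.inl ⟨hh, hR⟩
      · exact Or.inr ⟨hh, fun i hi => hR i (by rw [Pi.add_apply]; omega)⟩
    have b2 : ∑ d : q.ι × p.ι, ind (q.w d.1 ∧ (∀ i, 0 < q.v d.1 i + p.v d.2 i → i ∈ R)) ‖q.α d.1‖
        * ‖p.α d.2‖ ≤ (r : ℝ)⁻¹ * 2 ^ R.card * c * (e / 2) := by
      rw [Fintype.sum_prod_type_right]
      refine le_trans ?_ (mul_le_mul_of_nonneg_left p.sum2_le (by positivity))
      rw [Finset.mul_sum]
      refine Finset.sum_le_sum fun d' _ => ?_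
      dsimp only
      rw [← Finset.sum_mul, ← mul_assoc]
      exact mul_le_mul_of_nonneg_right (q.wild_shift R (p.hv d')) (norm_nonneg _)
    have b3 : ∑ d : q.ι × p.ι, ind (p.w d.2 ∧ (∀ i, 0 < p.v d.2 i + q.v d.1 i → i ∈ R)) ‖p.α d.2‖
        * ‖q.α d.1‖ ≤ (r : ℝ)⁻¹ * 2 ^ R.card * e * (c / 2) := by
      rw [Fintype.sum_prod_type]
      refine le_trans ?_ (mul_le_mul_of_nonneg_left q.sum2_le (by positivity))
      rw [Finset.mul_sum]
      refine Finset.sum_le_sum fun d' _ => ?_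
      dsimp only
      rw [← Finset.sum_mul, ← mul_assoc]
      exact mul_le_mul_of_nonneg_right (p.wild_shift R (q.hv d')) (norm_nonneg _)
    have b4 := Finset.sum_le_sum (s := Finset.univ) fun d _ => b1 d
    rw [Finset.sum_add_distrib] at b4
    refine b4.trans ?_
    have : (r : ℝ)⁻¹ * 2 ^ R.card * (c * e) = (r : ℝ)⁻¹ * 2 ^ R.card * c * (e / 2)
        + (r : ℝ)⁻¹ * 2 ^ R.card * e * (c / 2) := by ring
    rw [this]
    exact add_le_add b2 b3
  · intro x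
    have h1 := mul_le_mul (q.hf x) (p.val_le hr x) (norm_nonneg _) (by positivity)
    have h2 := mul_le_mul (q.main_le x) (p.hf x) (norm_nonneg _) (by positivity)
    refine (norm_add_le _ _).trans ?_
    rw [norm_mul, norm_mul]
    have : (r : ℝ)⁻¹ * (c * e) = (r : ℝ)⁻¹ * c * (3 / 4 * e) + c / 4 * ((r : ℝ)⁻¹ * e) := by ring
    rw [this]
    exact add_le_add h1 h2

end Pool.Agent.H.MP_93ce62_an
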