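import Pool.Agent.H.MP_93ce62_an.B

namespace Pool.Agent.H.MP_93ce62_an

open Finset

variable {r : ℕ} [NeZero r] {D : Dg r}

theorem rep_gen (k : D.V) : Rep D (chi D (Pi.single k 1)) 4 := by
  refine ⟨⟨Unit, fun _ => 1, fun _ => 1, fun _ => False, fun _ => Pi.single k 1, 0,
    by simp, ?_, ?_, by simp, by simp, ?_, by simp⟩⟩
  · intro _
    rw [Finset.sum_eq_single k] <;> simp +contextual
  · intro _ _
    refine ⟨{k}, by simp, by simp, ?_, ?_⟩
    · intro i hi
      by_contra h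
      simp only [Finset.mem_singleton] at h
      simp [h] at hi
    · intro s hs
      by_cases h : s = k
      · subst h; simp at hs
      · simp [h] at hs
  · intro R
    rw [Finset.sum_eq_zero fun _ _ => ind_neg (by simp) _]
    positivity

omit [NeZero r] in
theorem four_pow_ge {n : ℕ} (h : r ≤ n) : (r : ℝ) ≤ 4 ^ n := by
  have h1 : n < 4 ^ n := Nat.lt_pow_self (by norm_num)
  have : r ≤ 4 ^ n := by omega
  exact_mod_cast this

theorem RepD.big_le {a : Pt D → ℂ} {c : ℝ} (q : RepD D a c) :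
    ∑ d, ind (r ≤ q.n d) ‖q.α d‖ ≤ (r : ℝ)⁻¹ * c := by
  have hr : (0 : ℝ) < r := by exact_mod_cast Nat.pos_of_ne_zero (NeZero.ne r)
  refine le_trans ?_ (mul_le_mul_of_nonneg_left q.hc (by positivity))
  rw [Finset.mul_sum]
  refine Finset.sum_le_sum fun d _ => ?_
  by_cases h : r ≤ q.n d
  · rw [ind_pos h, ← mul_assoc]
    refine le_mul_of_one_le_left (norm_nonneg _) ?_
    rw [← div_eq_inv_mul, one_le_div hr]
    exact four_pow_ge h
  · rw [ind_neg h]; positivity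

noncomputable def RepD.mass {a : Pt D → ℂ} {c : ℝ} (q : RepD D a c) (i : D.V) : ℝ :=
  ∑ d, ind (¬ q.w d ∧ 0 < q.v d i) ‖q.α d‖

theorem RepD.mass_nonneg {a : Pt D → ℂ} {c : ℝ} (q : RepD D a c) (i : D.V) : 0 ≤ q.mass i :=
  Finset.sum_nonneg fun _ _ => ind_nonneg _ (norm_nonneg _)

theorem RepD.sum_mass {a : Pt D → ℂ} {c : ℝ} (q : RepD D a c) : ∑ i, q.mass i ≤ c := by
  unfold RepD.mass
  rw [Finset.sum_comm]
  refine le_trans (Finset.sum_le_sum fun d _ => ?_) q.hc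
  have h1 : ∀ i, ind (¬ q.w d ∧ 0 < q.v d i) ‖q.α d‖ ≤ ((|q.v d i| : ℤ) : ℝ) * ‖q.α d‖ := by
    intro i
    by_cases h : ¬ q.w d ∧ 0 < q.v d i
    · rw [ind_pos h]
      refine le_mul_of_one_le_left (norm_nonneg _) ?_
      exact_mod_cast Int.one_le_abs h.2.ne'
    · rw [ind_neg h]; positivity
  refine (Finset.sum_le_sum fun i _ => h1 i).trans ?_
  rw [← Finset.sum_mul]
  refine mul_le_mul_of_nonneg_right ?_ (norm_nonneg _)
  have h2 : ((∑ i, |q.v d i| : ℤ) : ℝ) ≤ ((q.n d : ℤ) : ℝ) := by exact_mod_cast q.hv d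
  have h3 : (q.n d : ℝ) ≤ 4 ^ q.n d := four_pow_ge le_rfl
  push_cast at h2 ⊢
  linarith

open Classical in
noncomputable def RepD.heavy {a : Pt D → ℂ} {c : ℝ} (q : RepD D a c) : Finset D.V :=
  Finset.univ.filter (fun i => (r : ℝ)⁻¹ * c < q.mass i)

theorem RepD.card_heavy {a : Pt D → ℂ} {c : ℝ} (q : RepD D a c) : q.heavy.card ≤ r := by
  have hr : (0 : ℝ) < r := by exact_mod_cast Nat.pos_of_ne_zero (NeZero.ne r)
  rcases q.heavy.eq_empty_or_nonempty with h | h
  · simp [h]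
  have h1 : ∑ _i ∈ q.heavy, (r : ℝ)⁻¹ * c < ∑ i ∈ q.heavy, q.mass i :=
    Finset.sum_lt_sum_of_nonempty h fun i hi => by simpa [RepD.heavy] using hi
  have h2 : ∑ i ∈ q.heavy, q.mass i ≤ ∑ i, q.mass i :=
    Finset.sum_le_sum_of_subset_of_nonneg (Finset.subset_univ _) fun i _ _ => q.mass_nonneg i
  have h3 := q.sum_mass
  have hc := q.nonneg
  rw [Finset.sum_const, nsmul_eq_mul] at h1
  by_contra hlt
  push Not at hlt
  have h4 : (r : ℝ) ≤ q.heavy.card := by exact_mod_cast hlt.le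
  have h5 : (r : ℝ) * ((r : ℝ)⁻¹ * c) ≤ q.heavy.card * ((r : ℝ)⁻¹ * c) :=
    mul_le_mul_of_nonneg_right h4 (by positivity)
  rw [← mul_assoc, mul_inv_cancel₀ hr.ne', one_mul] at h5
  linarith

theorem RepD.div {a : Pt D → ℂ} {c : ℝ} (q : RepD D a c) (k : D.V)
    (hk : ∀ i ∈ q.heavy, D.E i k) : Rep D (a * chi D (-Pi.single k 1)) (4 * c) := by
  have hc := q.nonneg
  have hu : ∑ i, |(-Pi.single k 1 : D.V → ℤ) i| ≤ ((1 : ℕ) : ℤ) := by
    rw [Finset.sum_eq_single k] <;> simp +contextual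
  refine ⟨⟨q.ι, q.α, fun d => q.n d + 1, fun d => q.w d ∨ ¬ ∃ i ∈ q.heavy, 0 < q.v d i,
    fun d => q.v d + -Pi.single k 1, q.f * chi D (-Pi.single k 1), by simp, ?_, ?_, ?_, ?_, ?_, ?_⟩⟩
  · intro d
    have h1 := q.hv d
    push_cast at hu ⊢
    refine le_trans (Finset.sum_le_sum fun i _ =>
      abs_add_le (q.v d i) ((-Pi.single k 1 : D.V → ℤ) i)) ?_
    rw [Finset.sum_add_distrib]
    exact add_le_add h1 hu
  · intro d hd
    push Not at hd
    obtain ⟨hw, i, hi, hpos⟩ := hd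
    obtain ⟨S, hS, hcard, hp, hE⟩ := q.hP d hw
    refine ⟨S, hS, by omega, ?_, ?_⟩
    · intro j hj
      refine hp j ?_
      by_cases h : j = k
      · subst h; simp at hj; omega
      · simpa [h] using hj
    · intro s hs
      by_cases h : s = k
      · subst h; exact ⟨i, hp i hpos, hk i hi⟩
      · exact hE s (by simpa [h] using hs)
  · intro x
    rw [Pi.mul_apply, Pi.mul_apply, q.ha x, add_mul, Finset.sum_mul]
    congr 1
    refine Finset.sum_congr rfl fun d _ => ?_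
    rw [chi_add]; ring
  · have := q.hc
    simp only [pow_succ]
    have e : ∑ d, (4 : ℝ) ^ q.n d * 4 * ‖q.α d‖ = 4 * ∑ d, 4 ^ q.n d * ‖q.α d‖ := by
      rw [Finset.mul_sum]; exact Finset.sum_congr rfl fun d _ => by ring
    rw [e]; linarith
  · intro R
    have b1 : ∀ d, ind ((q.w d ∨ ¬ ∃ i ∈ q.heavy, 0 < q.v d i) ∧
          (∀ i, 0 < (q.v d + -Pi.single k 1 : D.V → ℤ) i → i ∈ R)) ‖q.α d‖
        ≤ ind (q.w d ∧ (∀ i, 0 < q.v d i + (-Pi.single k 1 : D.V → ℤ) i → i ∈ R)) ‖q.α d‖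
          + ∑ i ∈ (insert k R) \ q.heavy, ind (¬ q.w d ∧ 0 < q.v d i) ‖q.α d‖
          + ind (r ≤ q.n d) ‖q.α d‖ := by
      intro d
      have n1 := ind_nonneg (q.w d ∧ (∀ i, 0 < q.v d i + (-Pi.single k 1 : D.V → ℤ) i → i ∈ R))
        (norm_nonneg (q.α d))
      have n2 : 0 ≤ ∑ i ∈ (insert k R) \ q.heavy, ind (¬ q.w d ∧ 0 < q.v d i) ‖q.α d‖ :=
        Finset.sum_nonneg fun _ _ => ind_nonneg _ (norm_nonneg _)
      have n3 := ind_nonneg (r ≤ q.n d) (norm_nonneg (q.α d))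
      by_cases hh : (q.w d ∨ ¬ ∃ i ∈ q.heavy, 0 < q.v d i) ∧
          (∀ i, 0 < (q.v d + -Pi.single k 1 : D.V → ℤ) i → i ∈ R)
      swap
      · rw [ind_neg hh]; linarith
      rw [ind_pos hh]
      obtain ⟨h1, hR⟩ := hh
      by_cases hw : q.w d
      · have hR' : ∀ i, 0 < q.v d i + (-Pi.single k 1 : D.V → ℤ) i → i ∈ R := hR
        rw [ind_pos (show q.w d ∧ _ from ⟨hw, hR'⟩)]; linarith
      have h2 := h1.resolve_left hw
      by_cases h3 : ∃ i, 0 < q.v d i
      · obtain ⟨i, hi⟩ := h3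
        have hm : i ∈ (insert k R) \ q.heavy := by
          rw [Finset.mem_sdiff, Finset.mem_insert]
          refine ⟨?_, fun h => h2 ⟨i, h, hi⟩⟩
          by_cases h : i = k
          · exact Or.inl h
          · exact Or.inr (hR i (by simpa [h] using hi))
        have := Finset.single_le_sum (f := fun i => ind (¬ q.w d ∧ 0 < q.v d i) ‖q.α d‖)
          (fun _ _ => ind_nonneg _ (norm_nonneg _)) hm
        rw [ind_pos ⟨hw, hi⟩] at this
        linarith
      · push Not at h3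
        rw [ind_pos (P_big D (q.hP d hw) h3)]; linarith
    have b2 := q.wild_shift R hu
    have b3 : ∑ d, ∑ i ∈ (insert k R) \ q.heavy, ind (¬ q.w d ∧ 0 < q.v d i) ‖q.α d‖
        ≤ (R.card + 1) * ((r : ℝ)⁻¹ * c) := by
      rw [Finset.sum_comm]
      have : ∀ i ∈ (insert k R) \ q.heavy, q.mass i ≤ (r : ℝ)⁻¹ * c := by
        intro i hi
        have := (Finset.mem_sdiff.mp hi).2
        simpa [RepD.heavy] using this
      refine (Finset.sum_le_sum this).trans ?_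
      rw [Finset.sum_const, nsmul_eq_mul]
      refine mul_le_mul_of_nonneg_right ?_ (by positivity)
      have : ((insert k R) \ q.heavy).card ≤ R.card + 1 :=
        (Finset.card_le_card Finset.sdiff_subset).trans (Finset.card_insert_le _ _)
      exact_mod_cast this
    have b4 := q.big_le
    have b5 := Finset.sum_le_sum (s := Finset.univ) fun d _ => b1 d
    rw [Finset.sum_add_distrib, Finset.sum_add_distrib] at b5
    have h1 : (R.card : ℝ) + 1 ≤ 2 ^ R.card := by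
      have : R.card < 2 ^ R.card := Nat.lt_pow_self (by norm_num)
      exact_mod_cast this
    have h2 : (1 : ℝ) ≤ 2 ^ R.card := one_le_pow₀ (by norm_num)
    have h0 : 0 ≤ (r : ℝ)⁻¹ * c := by positivity
    have h3 := mul_le_mul_of_nonneg_right h1 h0
    have h4 := mul_le_mul_of_nonneg_right h2 h0
    refine b5.trans ?_
    nlinarith
  · intro x
    rw [Pi.mul_apply, norm_mul, norm_chi, mul_one]
    have := q.hf x
    have h0 : 0 ≤ (r : ℝ)⁻¹ * c := by positivity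
    nlinarith

theorem rep_div {a b : Pt D → ℂ} {c e : ℝ} (h1 : Rep D a c) (h2 : Rep D b e) :
    ∃ k : D.V, Rep D (a * chi D (-Pi.single k 1)) (4 * c) ∧
      Rep D (b * chi D (-Pi.single k 1)) (4 * e) := by
  obtain ⟨q⟩ := h1
  obtain ⟨p⟩ := h2
  obtain ⟨k, hk⟩ := D.dom (q.heavy ∪ p.heavy) ((Finset.card_union_le _ _).trans (by
    have := q.card_heavy
    have := p.card_heavy
    omega))
  exact ⟨k, q.div k fun i hi => hk i (Finset.mem_union_left _ hi),
    p.div k fun i hi => hk i (Finset.mem_union_right _ hi)⟩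

theorem rep_one {c : ℝ} (h : Rep D 1 c) : (r : ℝ) ≤ 3 * c := by
  obtain ⟨q⟩ := h
  have hr : (0 : ℝ) < r := by exact_mod_cast Nat.pos_of_ne_zero (NeZero.ne r)
  set N : ℝ := ((Fintype.card (Pt D) : ℕ) : ℝ) with hN
  have hN0 : 0 < N := by rw [hN]; exact_mod_cast Fintype.card_pos
  have e1 : ((Fintype.card (Pt D) : ℕ) : ℂ)
      = ∑ d, q.α d * ∑ x, chi D (q.v d) x + ∑ x, q.f x := by
    have : ∑ x : Pt D, (1 : Pt D → ℂ) x = ∑ x, (∑ d, q.α d * chi D (q.v d) x + q.f x) :=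
      Finset.sum_congr rfl fun x _ => q.ha x
    rw [Finset.sum_add_distrib, Finset.sum_comm] at this
    simpa [Finset.mul_sum] using this
  have b1 : ∀ d, ‖q.α d * ∑ x, chi D (q.v d) x‖
      ≤ N * (ind (q.w d ∧ ∀ i, 0 < q.v d i → i ∈ (∅ : Finset D.V)) ‖q.α d‖
        + ind (r ≤ q.n d) ‖q.α d‖) := by
    intro d
    have n1 := ind_nonneg (q.w d ∧ ∀ i, 0 < q.v d i → i ∈ (∅ : Finset D.V)) (norm_nonneg (q.α d))
    have n3 := ind_nonneg (r ≤ q.n d) (norm_nonneg (q.α d))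
    by_cases h : ∃ i, ((q.v d i : ℤ) : ZMod r) ≠ 0
    · obtain ⟨i, hi⟩ := h
      rw [sum_chi D _ i hi, mul_zero, norm_zero]
      positivity
    push Not at h
    have hs : ‖∑ x, chi D (q.v d) x‖ ≤ N := by
      refine (norm_sum_le _ _).trans (le_of_eq ?_)
      simp [norm_chi, hN]
    rw [norm_mul, mul_comm]
    refine mul_le_mul hs ?_ (norm_nonneg _) hN0.le
    by_cases h0 : ∀ i, q.v d i = 0
    · by_cases hw : q.w d
      · rw [ind_pos (show q.w d ∧ _ from ⟨hw, fun i hi => by simp [h0 i] at hi⟩)]; linarith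
      · rw [ind_pos (P_big D (q.hP d hw) fun i => (h0 i).le)]; linarith
    · push Not at h0
      obtain ⟨i, hi⟩ := h0
      have h1 : (r : ℤ) ∣ q.v d i := (ZMod.intCast_zmod_eq_zero_iff_dvd _ _).mp (h i)
      have h2 : (r : ℤ) ≤ |q.v d i| := Int.le_of_dvd (abs_pos.mpr hi) ((dvd_abs _ _).mpr h1)
      have h3 : |q.v d i| ≤ ∑ j, |q.v d j| :=
        Finset.single_le_sum (f := fun j => |q.v d j|) (fun _ _ => abs_nonneg _) (Finset.mem_univ i)
      have h4 := q.hv d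
      rw [ind_pos (show r ≤ q.n d by omega)]; linarith
  have b2 : ‖∑ x, q.f x‖ ≤ N * ((r : ℝ)⁻¹ * c) := by
    refine (norm_sum_le _ _).trans ((Finset.sum_le_sum fun x _ => q.hf x).trans (le_of_eq ?_))
    simp [hN]
  have b3 := (norm_sum_le _ _).trans (Finset.sum_le_sum (s := Finset.univ) fun d _ => b1 d)
  rw [← Finset.mul_sum, Finset.sum_add_distrib] at b3
  have b4 := q.hw ∅
  have b5 := q.big_le
  simp only [Finset.card_empty, pow_zero, mul_one] at b4
  have b6 : N ≤ ‖∑ d, q.α d * ∑ x, chi D (q.v d) x‖ + ‖∑ x, q.f x‖ := by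
    refine le_trans (le_of_eq ?_) (norm_add_le _ _)
    rw [← e1]; simp [hN]
  have b7 := mul_le_mul_of_nonneg_left (add_le_add b4 b5) hN0.le
  have b8 : N * 1 ≤ N * (3 * ((r : ℝ)⁻¹ * c)) := by linarith
  have b9 := le_of_mul_le_mul_left b8 hN0
  have := mul_le_mul_of_nonneg_left b9 hr.le
  have e2 : (r : ℝ) * (3 * ((r : ℝ)⁻¹ * c)) = 3 * c := by field_simp
  linarith

end Pool.Agent.H.MP_93ce62_an
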