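import Pool.Agent.H.MP_93ce62_an.C

namespace Pool.Agent.H.MP_93ce62_an

open Finset

variable {r : ℕ} [NeZero r] {D : Dg r}

noncomputable def nrm (a : Pt D → ℂ) : ℝ := sInf {c | Rep D a c}

theorem rep_bdd (a : Pt D → ℂ) : BddBelow {c | Rep D a c} :=
  ⟨0, fun _ hc => hc.elim fun q => q.nonneg⟩

theorem nrm_le {a : Pt D → ℂ} {c : ℝ} (h : Rep D a c) : nrm a ≤ c := csInf_le (rep_bdd a) h

theorem le_nrm {a : Pt D → ℂ} {t : ℝ} (h : ∀ c, Rep D a c → t ≤ c) : t ≤ nrm a :=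
  le_csInf (rep_exists a) h

theorem nrm_nonneg (a : Pt D → ℂ) : 0 ≤ nrm a := le_nrm fun _ hc => hc.elim fun q => q.nonneg

theorem nrm_zero : nrm (0 : Pt D → ℂ) = 0 := le_antisymm (nrm_le rep_zero) (nrm_nonneg _)

theorem nrm_add (a b : Pt D → ℂ) : nrm (a + b) ≤ nrm a + nrm b := by
  have h1 : ∀ e, Rep D b e → nrm (a + b) - e ≤ nrm a := fun e he =>
    le_nrm fun c hc => by have := nrm_le (rep_add hc he); linarith
  have h2 : nrm (a + b) - nrm a ≤ nrm b := le_nrm fun e he => by have := h1 e he; linarith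
  linarith

theorem le_mul_nrm {a : Pt D → ℂ} {t s : ℝ} (hs : 0 ≤ s) (h : ∀ c, Rep D a c → t ≤ s * c) :
    t ≤ s * nrm a := by
  rcases hs.eq_or_lt with rfl | hs
  · obtain ⟨c, hc⟩ := rep_exists a
    simpa using h c hc
  · rw [← div_le_iff₀' hs]
    exact le_nrm fun c hc => (div_le_iff₀' hs).mpr (h c hc)

theorem nrm_smul (z : ℂ) (a : Pt D → ℂ) : nrm (z • a) ≤ ‖z‖ * nrm a :=
  le_mul_nrm (norm_nonneg z) fun _ hc => nrm_le (rep_smul z hc)

theorem nrm_mul (hr : 2 ≤ r) (a b : Pt D → ℂ) : nrm (a * b) ≤ nrm a * nrm b := by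
  refine le_mul_nrm (nrm_nonneg a) fun e he => ?_
  rw [mul_comm (nrm a)]
  refine le_mul_nrm (he.elim fun q => q.nonneg) fun c hc => ?_
  rw [mul_comm e]
  exact nrm_le (rep_mul hr hc he)

theorem val_le_nrm (hr : 2 ≤ r) (a : Pt D → ℂ) (x : Pt D) : ‖a x‖ ≤ nrm a :=
  le_nrm fun c hc => hc.elim fun q => by
    have := q.val_le hr x
    have := q.nonneg
    linarith

theorem nrm_neg (a : Pt D → ℂ) : nrm (-a) = nrm a := by
  have h : ∀ b : Pt D → ℂ, nrm (-b) ≤ nrm b := fun b => by simpa using nrm_smul (-1) b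
  exact le_antisymm (h a) (by simpa using h (-a))

theorem nrm_eq_zero (hr : 2 ≤ r) (a : Pt D → ℂ) (h : nrm a = 0) : a = 0 := by
  funext x
  have := val_le_nrm hr a x
  rw [h] at this
  simpa using this

theorem rep_two (hr : 2 ≤ r) (a : Pt D → ℂ) : ∃ c, Rep D a c ∧ c ≤ 2 * nrm a := by
  rcases (nrm_nonneg a).eq_or_lt with h | h
  · have := nrm_eq_zero hr a h.symm
    subst this
    exact ⟨0, rep_zero, by simp [nrm_zero]⟩
  · obtain ⟨c, hc, hlt⟩ := exists_lt_of_csInf_lt (rep_exists a)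
      (show sInf {c | Rep D a c} < 2 * nrm a by change nrm a < _; linarith)
    exact ⟨c, hc, hlt.le⟩

theorem nrm_div (hr : 2 ≤ r) (a b : Pt D → ℂ) : ∃ u a' b' : Pt D → ℂ, nrm u ≤ 4 ∧ a = u * a' ∧
    b = u * b' ∧ nrm a' ≤ 8 * nrm a ∧ nrm b' ≤ 8 * nrm b := by
  obtain ⟨c, hc, hc'⟩ := rep_two hr a
  obtain ⟨e, he, he'⟩ := rep_two hr b
  obtain ⟨k, h1, h2⟩ := rep_div hc he
  have hu : ∀ y : Pt D → ℂ, y = chi D (Pi.single k 1) * (y * chi D (-Pi.single k 1)) := by
    intro y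
    funext x
    have := chi_add D (Pi.single k 1) (-Pi.single k 1) x
    rw [add_neg_cancel, chi_zero] at this
    simp only [Pi.mul_apply]
    linear_combination (y x) * this
  refine ⟨chi D (Pi.single k 1), _, _, nrm_le (rep_gen k), hu a, hu b, ?_, ?_⟩
  · have := nrm_le h1; linarith
  · have := nrm_le h2; linarith

theorem nrm_one : (r : ℝ) ≤ 3 * nrm (1 : Pt D → ℂ) :=
  le_mul_nrm (by norm_num) fun _ hc => rep_one hc

def Alg (D : Dg r) : Type := Pt D → ℂ

noncomputable instance : NonUnitalCommRing (Alg D) :=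
  inferInstanceAs (NonUnitalCommRing (Pt D → ℂ))

noncomputable instance : Module ℂ (Alg D) := inferInstanceAs (Module ℂ (Pt D → ℂ))

instance : IsScalarTower ℂ (Alg D) (Alg D) :=
  inferInstanceAs (IsScalarTower ℂ (Pt D → ℂ) (Pt D → ℂ))

instance : SMulCommClass ℂ (Alg D) (Alg D) :=
  inferInstanceAs (SMulCommClass ℂ (Pt D → ℂ) (Pt D → ℂ))

instance : FiniteDimensional ℂ (Alg D) := inferInstanceAs (FiniteDimensional ℂ (Pt D → ℂ))

variable [hr : Fact (2 ≤ r)]

noncomputable def algNorm : AddGroupNorm (Alg D) where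
  toFun := fun a => nrm (D := D) a
  map_zero' := nrm_zero
  add_le' := nrm_add
  neg' := nrm_neg
  eq_zero_of_map_eq_zero' := nrm_eq_zero hr.out

noncomputable instance algRing : NonUnitalNormedCommRing (Alg D) :=
  { (algNorm (D := D)).toNormedAddCommGroup, (inferInstance : NonUnitalCommRing (Alg D)) with
    norm_mul_le := nrm_mul hr.out }

theorem alg_norm (a : Alg D) : ‖a‖ = nrm (D := D) a := rfl

noncomputable instance : NormedSpace ℂ (Alg D) where
  norm_smul_le := nrm_smul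

instance : CompleteSpace (Alg D) := FiniteDimensional.complete ℂ (Alg D)

end Pool.Agent.H.MP_93ce62_an
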