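import Mathlib

namespace Pool.Agent.H.MP_93ce62_an

open Filter Topology
open scoped ENNReal

variable (B : ℕ → Type) [∀ n, NonUnitalNormedCommRing (B n)] [∀ n, NormedSpace ℂ (B n)]
  [∀ n, IsScalarTower ℂ (B n) (B n)] [∀ n, SMulCommClass ℂ (B n) (B n)]

noncomputable def C0 : NonUnitalSubalgebra ℂ (lp B ∞) where
  carrier := {f | Tendsto (fun n => ‖f n‖) atTop (𝓝 0)}
  add_mem' := by
    intro f g hf hg
    have := Tendsto.add hf hg
    rw [add_zero] at this
    exact squeeze_zero (fun _ => norm_nonneg _) (fun n => norm_add_le (f n) (g n)) this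
  zero_mem' := by
    change Tendsto (fun n => ‖(0 : lp B ∞) n‖) atTop (𝓝 0)
    simp
  mul_mem' := by
    intro f g hf _
    have := Tendsto.mul_const ‖g‖ hf
    rw [zero_mul] at this
    refine squeeze_zero (fun _ => norm_nonneg _) (fun n => (norm_mul_le (f n) (g n)).trans ?_) this
    exact mul_le_mul_of_nonneg_left (lp.norm_apply_le_norm ENNReal.top_ne_zero g n) (norm_nonneg _)
  smul_mem' := by
    intro c f hf
    have := Tendsto.const_mul ‖c‖ hf
    rw [mul_zero] at this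
    exact squeeze_zero (fun _ => norm_nonneg _) (fun n => norm_smul_le c (f n)) this

theorem mem_C0 (f : lp B ∞) : f ∈ C0 B ↔ Tendsto (fun n => ‖f n‖) atTop (𝓝 0) := Iff.rfl

theorem isClosed_C0 : IsClosed (C0 B : Set (lp B ∞)) := by
  refine isClosed_of_closure_subset fun f hf => ?_
  change Tendsto (fun n => ‖f n‖) atTop (𝓝 0)
  rw [Metric.tendsto_atTop]
  intro ε hε
  obtain ⟨g, hg, hfg⟩ := Metric.mem_closure_iff.mp hf (ε / 2) (by positivity)
  have hg' : Tendsto (fun n => ‖g n‖) atTop (𝓝 0) := hg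
  obtain ⟨N, hN⟩ := Metric.tendsto_atTop.mp hg' (ε / 2) (by positivity)
  refine ⟨N, fun n hn => ?_⟩
  have h1 := hN n hn
  rw [dist_zero_right, norm_norm] at h1 ⊢
  have h2 := lp.norm_apply_le_norm ENNReal.top_ne_zero (f - g) n
  rw [dist_eq_norm] at hfg
  have h3 : ‖f n‖ ≤ ‖(f - g) n‖ + ‖g n‖ := by
    have : f n = (f - g) n + g n := by simp
    conv_lhs => rw [this]
    exact norm_add_le _ _
  linarith

noncomputable instance : NormedSpace ℂ (C0 B) where
  norm_smul_le c f := norm_smul_le c (f : lp B ∞)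

instance [∀ n, CompleteSpace (B n)] : CompleteSpace (C0 B) := (isClosed_C0 B).completeSpace_coe

variable {B}

theorem coord_le (f : C0 B) (n : ℕ) : ‖(f : lp B ∞) n‖ ≤ ‖f‖ :=
  lp.norm_apply_le_norm ENNReal.top_ne_zero (f : lp B ∞) n

theorem C0_ext {f g : C0 B} (h : ∀ n, (f : lp B ∞) n = (g : lp B ∞) n) : f = g :=
  Subtype.ext (lp.ext (funext h))

theorem coord_mul (f g : C0 B) (n : ℕ) :
    ((f * g : C0 B) : lp B ∞) n = (f : lp B ∞) n * (g : lp B ∞) n := rfl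

theorem coord_sub (f g : C0 B) (n : ℕ) :
    ((f - g : C0 B) : lp B ∞) n = (f : lp B ∞) n - (g : lp B ∞) n := rfl

theorem coord_add (f g : C0 B) (n : ℕ) :
    ((f + g : C0 B) : lp B ∞) n = (f : lp B ∞) n + (g : lp B ∞) n := rfl

theorem coord_smul (c : ℂ) (g : C0 B) (n : ℕ) :
    ((c • g : C0 B) : lp B ∞) n = c • (g : lp B ∞) n := rfl

theorem exists_C0 (g : ∀ n, B n) (C : ℝ) (s : ℕ → ℝ) (hC : 0 ≤ C) (hs : ∀ n, s n ≤ 1)
    (hs0 : Tendsto s atTop (𝓝 0)) (h : ∀ n, ‖g n‖ ≤ C * s n) :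
    ∃ f : C0 B, (∀ n, (f : lp B ∞) n = g n) ∧ ‖f‖ ≤ C := by
  have h1 : ∀ n, ‖g n‖ ≤ C := fun n => (h n).trans (mul_le_of_le_one_right hC (hs n))
  have hm : Memℓp g ∞ := memℓp_infty ⟨C, by rintro _ ⟨n, rfl⟩; exact h1 n⟩
  have h2 := Tendsto.const_mul C hs0
  rw [mul_zero] at h2
  refine ⟨⟨⟨g, hm⟩, squeeze_zero (fun _ => norm_nonneg _) h h2⟩, fun _ => rfl, ?_⟩
  exact lp.norm_le_of_forall_le hC h1

theorem pairs (hdiv : ∀ n (a b : B n), ∃ u a' b' : B n, ‖u‖ ≤ 4 ∧ a = u * a' ∧ b = u * b' ∧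
      ‖a'‖ ≤ 8 * ‖a‖ ∧ ‖b'‖ ≤ 8 * ‖b‖) (a b : C0 B) :
    ∃ u a' b' : C0 B, a = u * a' ∧ b = u * b' ∧ ‖u‖ * ‖a'‖ ≤ 32 * ‖a‖ ∧ ‖u‖ * ‖b'‖ ≤ 32 * ‖b‖ := by
  choose u a' b' hu ha hb ha' hb' using fun n => hdiv n ((a : lp B ∞) n) ((b : lp B ∞) n)
  set s : ℕ → ℝ := fun n => Real.sqrt (max (‖(a : lp B ∞) n‖ / ‖a‖) (‖(b : lp B ∞) n‖ / ‖b‖))
    with hs
  have s0 : ∀ n, 0 ≤ s n := fun n => Real.sqrt_nonneg _
  have s1 : ∀ n, s n ≤ 1 := fun n => by
    refine Real.sqrt_le_one.mpr ?_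
    exact max_le (div_le_one_of_le₀ (coord_le a n) (norm_nonneg _))
      (div_le_one_of_le₀ (coord_le b n) (norm_nonneg _))
  have s2 : Tendsto s atTop (𝓝 0) := by
    have h1 := Tendsto.div_const ((mem_C0 B _).mp a.2) ‖a‖
    have h2 := Tendsto.div_const ((mem_C0 B _).mp b.2) ‖b‖
    have := (h1.max h2).sqrt
    simpa using this
  have s3 : ∀ n, s n * s n = max (‖(a : lp B ∞) n‖ / ‖a‖) (‖(b : lp B ∞) n‖ / ‖b‖) := fun n =>
    Real.mul_self_sqrt (le_max_of_le_left (by positivity))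
  have key : ∀ (y : C0 B) (y' : ∀ n, B n), (∀ n, ‖(y : lp B ∞) n‖ / ‖y‖ ≤ s n * s n) →
      (∀ n, (y : lp B ∞) n = u n * y' n) → (∀ n, ‖y' n‖ ≤ 8 * ‖(y : lp B ∞) n‖) →
      ∃ z : C0 B, ‖z‖ ≤ 8 * ‖y‖ ∧
        ∀ n, (y : lp B ∞) n = ((s n : ℂ) • u n) * (z : lp B ∞) n := by
    intro y y' h1 h2 h3
    have h4 : ∀ n, ‖(y : lp B ∞) n‖ ≤ ‖y‖ * (s n * s n) := by
      intro n
      rcases (norm_nonneg y).eq_or_lt with h | h
      · have := coord_le y n
        rw [← h] at this ⊢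
        simpa using this
      · exact (div_le_iff₀' h).mp (h1 n)
    obtain ⟨z, hz, hz'⟩ := exists_C0 (fun n => ((s n)⁻¹ : ℂ) • y' n) (8 * ‖y‖) s (by positivity)
      s1 s2 (by
        intro n
        rw [norm_smul, norm_inv, Complex.norm_real, Real.norm_of_nonneg (s0 n)]
        rcases (s0 n).eq_or_lt with h | h
        · rw [← h]; simp
        · rw [← div_eq_inv_mul, div_le_iff₀ h]
          have := h3 n
          have := h4 n
          nlinarith)
    refine ⟨z, hz', fun n => ?_⟩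
    rw [hz n, smul_mul_smul_comm]
    rcases (s0 n).eq_or_lt with h | h
    · have := h4 n
      rw [← h] at this ⊢
      simpa using this
    · rw [mul_inv_cancel₀ (by exact_mod_cast h.ne'), one_smul, h2 n]
  obtain ⟨U, hU, hU'⟩ := exists_C0 (fun n => (s n : ℂ) • u n) 4 s (by norm_num) s1 s2 (by
    intro n
    rw [norm_smul, Complex.norm_real, Real.norm_of_nonneg (s0 n), mul_comm]
    exact mul_le_mul_of_nonneg_right (hu n) (s0 n))
  obtain ⟨za, hza, hza'⟩ := key a a' (fun n => by rw [s3]; exact le_max_left _ _) ha ha'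
  obtain ⟨zb, hzb, hzb'⟩ := key b b' (fun n => by rw [s3]; exact le_max_right _ _) hb hb'
  refine ⟨U, za, zb, C0_ext fun n => ?_, C0_ext fun n => ?_, ?_, ?_⟩
  · rw [coord_mul, hU, hza']
  · rw [coord_mul, hU, hzb']
  · have := mul_le_mul hU' hza (norm_nonneg _) (by norm_num)
    linarith
  · have := mul_le_mul hU' hzb (norm_nonneg _) (by norm_num)
    linarith

noncomputable def sing (n : ℕ) (y : B n) : C0 B :=
  ⟨lp.single ∞ n y, by
    rw [mem_C0]
    refine tendsto_const_nhds.congr' ?_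
    filter_upwards [eventually_gt_atTop n] with m hm
    rw [lp.single_apply_ne _ _ _ hm.ne', norm_zero]⟩

theorem sing_self (n : ℕ) (y : B n) : ((sing n y : C0 B) : lp B ∞) n = y :=
  lp.single_apply_self _ _ _

theorem sing_ne (n : ℕ) (y : B n) {m : ℕ} (h : m ≠ n) : ((sing n y : C0 B) : lp B ∞) m = 0 :=
  lp.single_apply_ne _ _ _ h

theorem no_bai (hone : ∀ n, ∃ o : B n, (∀ e, e * o = e) ∧ (n : ℝ) ≤ 3 * ‖o‖) :
    ¬ ∃ (C : ℝ) (l : Filter (C0 B)), l.NeBot ∧ (∀ᶠ e in l, ‖e‖ ≤ C) ∧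
      ∀ a, Tendsto (fun e => ‖a - e * a‖) l (𝓝 0) := by
  rintro ⟨C, l, hl, hC, h⟩
  obtain ⟨n, hn⟩ := exists_nat_gt (3 * (C + 1))
  obtain ⟨o, ho, ho'⟩ := hone n
  have h1 := (h (sing n o)).eventually (gt_mem_nhds zero_lt_one)
  obtain ⟨e, he, he'⟩ := (hC.and h1).exists
  have h2 := coord_le (sing n o - e * sing n o) n
  rw [coord_sub, coord_mul, sing_self, ho] at h2
  have h3 := coord_le e n
  have h4 := norm_sub_norm_le o ((e : lp B ∞) n)
  linarith

theorem sing_add (n : ℕ) (y z : B n) : (sing n (y + z) : C0 B) = sing n y + sing n z :=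
  Subtype.ext (lp.single_add _ _ _ _)

theorem sing_smul (n : ℕ) (c : ℂ) (y : B n) : (sing n (c • y) : C0 B) = c • sing n y :=
  Subtype.ext (lp.single_smul _ _ _ _)

noncomputable def singL (n : ℕ) : B n →ₗ[ℂ] C0 B where
  toFun := sing n
  map_add' := sing_add n
  map_smul' := sing_smul n

theorem sing_mul (n : ℕ) (y : B n) (a : C0 B) :
    sing n y * a = sing n (y * (a : lp B ∞) n) := by
  refine C0_ext fun m => ?_
  rw [coord_mul]
  by_cases h : m = n
  · subst h; rw [sing_self, sing_self]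
  · rw [sing_ne _ _ h, sing_ne _ _ h, zero_mul]

theorem coord_sum (s : Finset ℕ) (g : ℕ → C0 B) (m : ℕ) :
    ((∑ n ∈ s, g n : C0 B) : lp B ∞) m = ∑ n ∈ s, (g n : lp B ∞) m := by
  induction s using Finset.induction_on with
  | empty => rfl
  | insert n s hn ih => rw [Finset.sum_insert hn, Finset.sum_insert hn, coord_add, ih]

theorem tendsto_trunc (a : C0 B) :
    Tendsto (fun N => ∑ n ∈ Finset.range N, (sing n ((a : lp B ∞) n) : C0 B)) atTop (𝓝 a) := by
  rw [Metric.tendsto_atTop]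
  intro ε hε
  obtain ⟨N, hN⟩ := Metric.tendsto_atTop.mp ((mem_C0 B _).mp a.2) (ε / 2) (by positivity)
  refine ⟨N, fun M hM => ?_⟩
  rw [dist_eq_norm]
  refine lt_of_le_of_lt (lp.norm_le_of_forall_le (C := ε / 2) (by positivity) fun m => ?_)
    (by linarith)
  change ‖((∑ n ∈ Finset.range M, sing n ((a : lp B ∞) n) - a : C0 B) : lp B ∞) m‖ ≤ _
  rw [coord_sub, coord_sum]
  by_cases hm : m ∈ Finset.range M
  · rw [Finset.sum_eq_single_of_mem m hm fun n _ hn => sing_ne _ _ hn.symm, sing_self, sub_self,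
      norm_zero]
    positivity
  · rw [Finset.sum_eq_zero fun n hn => sing_ne _ _ (fun e : m = n => hm (e ▸ hn)), zero_sub, norm_neg]
    have := hN m (by simp at hm; omega)
    rw [dist_zero_right, norm_norm] at this
    exact this.le

open WeakDual

variable {X : ℕ → Type} [∀ n, Fintype (X n)] (ev : ∀ n, X n → B n → ℂ) (δ : ∀ n, X n → B n)

theorem char_sing (hδ : ∀ n x a, δ n x * a = ev n x a • δ n x)
    (φ : characterSpace ℂ (C0 B)) (n : ℕ) (x : X n) (h : φ (sing n (δ n x)) ≠ 0) (a : C0 B) :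
    φ a = ev n x ((a : lp B ∞) n) := by
  have h1 := map_mul φ (sing n (δ n x)) a
  rw [sing_mul, hδ, sing_smul, map_smul, smul_eq_mul, mul_comm] at h1
  exact (mul_left_cancel₀ h h1).symm

theorem char_exists (hsum : ∀ n a, a = ∑ x, ev n x a • δ n x) (φ : characterSpace ℂ (C0 B)) :
    ∃ n x, φ (sing n (δ n x)) ≠ 0 := by
  by_contra h
  push Not at h
  have h1 : ∀ n (y : B n), φ (sing n y) = 0 := by
    intro n y
    rw [hsum n y]
    change φ (singL n _) = 0
    rw [map_sum, map_sum]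
    refine Finset.sum_eq_zero fun x _ => ?_
    rw [map_smul, map_smul]
    change _ • φ (sing n (δ n x)) = 0
    rw [h, smul_zero]
  refine φ.2.1 (DFunLike.ext _ _ fun a => ?_)
  change φ a = 0
  have h2 := ((map_continuous φ).tendsto a).comp (tendsto_trunc a)
  have h3 : (φ ∘ fun N => ∑ n ∈ Finset.range N, (sing n ((a : lp B ∞) n) : C0 B)) = fun _ => 0 := by
    funext N
    simp [map_sum, h1]
  rw [h3] at h2
  exact tendsto_nhds_unique h2 tendsto_const_nhds

theorem char_sep (hδ : ∀ n x a, δ n x * a = ev n x a • δ n x)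
    (hsum : ∀ n a, a = ∑ x, ev n x a • δ n x) (φ : characterSpace ℂ (C0 B)) :
    ∃ a : C0 B, φ a ≠ 0 ∧ ∀ ψ : characterSpace ℂ (C0 B), ψ ≠ φ → ψ a = 0 := by
  obtain ⟨n, x, h⟩ := char_exists ev δ hsum φ
  refine ⟨_, h, fun ψ hψ => ?_⟩
  by_contra h'
  refine hψ (CharacterSpace.ext fun a => ?_)
  rw [char_sing ev δ hδ φ n x h, char_sing ev δ hδ ψ n x h']

theorem char_discrete (hδ : ∀ n x a, δ n x * a = ev n x a • δ n x)
    (hsum : ∀ n a, a = ∑ x, ev n x a • δ n x) : DiscreteTopology (characterSpace ℂ (C0 B)) := by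
  rw [discreteTopology_iff_isOpen_singleton]
  intro φ
  obtain ⟨a, h1, h2⟩ := char_sep ev δ hδ hsum φ
  have : ({φ} : Set (characterSpace ℂ (C0 B))) = {ψ | ψ a ≠ 0} := by
    ext ψ
    simp only [Set.mem_singleton_iff, Set.mem_ofPred_eq]
    exact ⟨fun e => e ▸ h1, fun h => by_contra fun e => h (h2 ψ e)⟩
  rw [this]
  exact isOpen_ne_fun ((WeakDual.eval_continuous a).comp continuous_subtype_val) continuous_const

theorem char_ss (hsum : ∀ n a, a = ∑ x, ev n x a • δ n x)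
    (hadd : ∀ n x a b, ev n x (a + b) = ev n x a + ev n x b)
    (hsmul : ∀ n x (c : ℂ) a, ev n x (c • a) = c * ev n x a)
    (hmul : ∀ n x a b, ev n x (a * b) = ev n x a * ev n x b)
    (hle : ∀ n x a, ‖ev n x a‖ ≤ ‖a‖) (a : C0 B)
    (h : ∀ φ : characterSpace ℂ (C0 B), φ a = 0) : a = 0 := by
  refine C0_ext fun n => ?_
  change (a : lp B ∞) n = 0
  rw [hsum n ((a : lp B ∞) n)]
  refine Finset.sum_eq_zero fun x _ => ?_
  let L : C0 B →ₗ[ℂ] ℂ :=
    { toFun := fun b => ev n x ((b : lp B ∞) n)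
      map_add' := fun b c => hadd n x _ _
      map_smul' := fun c b => hsmul n x c _ }
  let L' : C0 B →L[ℂ] ℂ := L.mkContinuous 1 fun b => by
    rw [one_mul]; exact (hle n x _).trans (coord_le b n)
  by_cases h0 : ev n x ((a : lp B ∞) n) = 0
  · rw [h0, zero_smul]
  · exfalso
    refine h0 (h ⟨StrongDual.toWeakDual L', fun e => h0 ?_, fun b c => hmul n x _ _⟩)
    exact DFunLike.congr_fun e a

end Pool.Agent.H.MP_93ce62_an
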